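import Pool.Agent.Y6.N.Stm
import Pool.Agent.Y275.ND.A1

/-! NSK-CONC: the concrete system with the exact Laplacian. -/

open Set Filter Topology MeasureTheory

set_option autoImplicit false

namespace Pool.Agent.Y638.NSK

open Pool.Agent.Y5 Pool.Agent.Y5.D Pool.Agent.Y6.N
open Pool.Agent.Y275.ND

variable {J : Type} {ν : ℝ} {g : J → ℕ} {F lm L C ℓ M N : ℕ → ℝ} {B : ℕ → ℕ → ℝ} {e : Ix J → Fam}

/-! ### Two vectors of `ℝ^3` have a common orthogonal vector -/

theorem exists_orth (x y : E3) : ∃ v : E3, v ≠ 0 ∧ inner ℝ x v = 0 ∧ inner ℝ y v = 0 := by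
  classical
  obtain ⟨U, hU⟩ : ∃ U : Submodule ℝ E3, U = Submodule.span ℝ {x, y} := ⟨_, rfl⟩
  have h1 : Module.finrank ℝ U ≤ 2 := by
    rw [hU]
    have h2 := finrank_span_le_card (R := ℝ) ({x, y} : Set E3)
    refine h2.trans ?_
    rw [Set.toFinset_insert, Set.toFinset_singleton]
    exact Finset.card_le_two
  have h2 : Uᗮ ≠ ⊥ := by
    intro h
    rw [Submodule.orthogonal_eq_bot_iff] at h
    rw [h, finrank_top, finrank_euclideanSpace_fin] at h1
    omega
  obtain ⟨v, hv, hv0⟩ := Submodule.exists_mem_ne_zero_of_ne_bot h2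
  rw [Submodule.mem_orthogonal] at hv
  refine ⟨v, hv0, hv x ?_, hv y ?_⟩
  · rw [hU]; exact Submodule.subset_span (by simp)
  · rw [hU]; exact Submodule.subset_span (by simp)

/-! ### The set of the other modes is infinite -/

theorem countable_J (hK : Kern g L C B M (fun j a b => bil (e a) (e b) (e j))) : Countable J := by
  have h1 : (Set.univ : Set J) = ⋃ m : ℕ, {j | g j = m} := by
    ext j
    simp
  have h2 : (Set.univ : Set J).Countable := by
    rw [h1]
    exact Set.countable_iUnion fun m => (hK.fin m).countable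
  exact Set.countable_univ_iff.1 h2

theorem vec_neg (k : Z3) : vec (-k) = -vec k := by
  unfold vec
  ext i
  simp

theorem infinite_J (hc : Conc ν g F L ℓ M N e) : Infinite J := by
  classical
  by_contra hcon
  rw [not_infinite_iff_finite] at hcon
  obtain ⟨n, hn⟩ : ∃ n : ℕ, ∀ j, g j < n := by
    obtain ⟨n, hn⟩ := (Set.finite_range g).bddAbove
    exact ⟨n + 1, fun j => Nat.lt_succ_of_le (hn ⟨j, rfl⟩)⟩
  obtain ⟨k, hk⟩ := exists_supp hc (Sum.inl n)
  obtain ⟨v, hv0, hv1, hv2⟩ := exists_orth (vec k) (e (Sum.inl n) k)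
  have hk1 : 1 ≤ ‖vec k‖ := (hc.fsupp _ k hk).1
  have hkk : k ≠ -k := by
    intro h
    have h1 : vec k = -vec k := by rw [← vec_neg, ← h]
    have h2 : vec k = 0 := by
      have h3 : (2 : ℝ) • vec k = 0 := by
        rw [two_smul]
        nth_rewrite 2 [h1]
        exact add_neg_cancel _
      exact (smul_eq_zero.1 h3).resolve_left two_ne_zero
    rw [h2, norm_zero] at hk1
    linarith
  obtain ⟨V, hV⟩ : ∃ V : Fam, V = fun k' => if k' = k then v else if k' = -k then -v else 0 :=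
    ⟨_, rfl⟩
  have hVk : V k = v := by rw [hV]; simp
  have hVn : V (-k) = -v := by
    rw [hV]
    simp [Ne.symm hkk]
  have hV0 : ∀ k', k' ≠ k → k' ≠ -k → V k' = 0 := by
    intro k' h1 h2
    rw [hV]
    simp [h1, h2]
  have hOT : OT V := by
    constructor
    · intro k'
      by_cases h1 : k' = k
      · rw [h1, hVk, hVn]
      · by_cases h2 : k' = -k
        · rw [h2, neg_neg, hVk, hVn, neg_neg]
        · rw [hV0 k' h1 h2, hV0 (-k') (fun h => h2 (by rw [← h, neg_neg]))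
            (fun h => h1 (neg_injective h)), neg_zero]
    · intro k'
      by_cases h1 : k' = k
      · rw [h1, hVk, hv1]
      · by_cases h2 : k' = -k
        · rw [h2, hVn, vec_neg, inner_neg_neg, hv1]
        · rw [hV0 k' h1 h2, inner_zero_right]
  have hpair : ∀ a, pair V (e a) = 0 := by
    intro a
    have h1 : inner ℝ v (e a k) = 0 := by
      by_cases h0 : e a k = 0
      · rw [h0, inner_zero_right]
      · have h2 := hc.disj a (Sum.inl n) k h0 hk
        cases a with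
        | inl m =>
          have h3 : m = n := h2
          rw [h3, real_inner_comm]
          exact hv2
        | inr j =>
          have h3 : g j = n := h2
          have := hn j
          omega
    unfold pair
    have h2 : ∀ k', inner ℝ (V k') (e a k') = 0 := by
      intro k'
      by_cases h3 : k' = k
      · rw [h3, hVk, h1]
      · by_cases h4 : k' = -k
        · rw [h4, hVn, (hc.ot a).odd, inner_neg_neg, h1]
        · rw [hV0 k' h3 h4, inner_zero_left]
    simp [h2]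
  have h1 := hc.compl V hOT hpair k
  rw [hVk] at h1
  exact hv0 h1

theorem exists_rot (hc : Conc ν g F L ℓ M N e)
    (hK : Kern g L C B M (fun j a b => bil (e a) (e b) (e j))) :
    ∃ (o : J → ℕ) (σ : J → J) (τ : J → ℝ), Rot o σ τ := by
  classical
  have h1 := countable_J hK
  have h2 := infinite_J hc
  obtain ⟨h3⟩ := nonempty_denumerable J
  obtain ⟨φ⟩ : Nonempty (J ≃ ℕ × Bool) :=
    ⟨(Denumerable.eqv J).trans (Equiv.boolProdNatEquivNat.symm.trans (Equiv.prodComm _ _))⟩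
  refine ⟨fun j => (φ j).1, fun j => φ.symm ((φ j).1, !(φ j).2),
    fun j => if (φ j).2 = true then 1 else -1, ?_, ?_, ?_, ?_, ?_⟩
  · intro j
    simp
  · intro j
    simp
  · intro j
    simp only [Equiv.apply_symm_apply]
    cases (φ j).2 <;> simp
  · intro j
    split_ifs <;> norm_num
  · intro m
    have h4 : {j | (φ j).1 ≤ m} = φ ⁻¹' (Set.Iic m ×ˢ (Set.univ : Set Bool)) := by
      ext j
      simp
    rw [h4]
    exact ((Set.finite_Iic m).prod Set.finite_univ).preimage φ.injective.injOn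

/-! ### The dissipation -/

theorem norm_sq_summable (hc : Conc ν g F L ℓ M N e) (a b : Ix J) (f : Z3 → ℝ) :
    Summable (fun k => f k * inner ℝ (e a k) (e b k)) := by
  apply summable_of_hasFiniteSupport
  refine (supp_finite hc a).subset ?_
  intro k hk
  simp only [Function.mem_support, ne_eq, mul_eq_zero, not_or] at hk
  change e a k ≠ 0
  intro h
  exact hk.2 (by rw [h, inner_zero_left])

theorem dm_diag (a : Ix J) : Dm ν e a a =
    ν * ((2 * Real.pi) ^ 2 * ∑' k, ‖vec k‖ ^ 2 * ‖e a k‖ ^ 2) := by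
  unfold Dm
  simp only [real_inner_self_eq_norm_sq]

theorem dm_diag_nonneg (hν : 0 < ν) (a : Ix J) : 0 ≤ Dm ν e a a := by
  rw [dm_diag]
  have : 0 ≤ ∑' k, ‖vec k‖ ^ 2 * ‖e a k‖ ^ 2 := tsum_nonneg fun k => by positivity
  positivity

theorem dm_symm (a b : Ix J) : Dm ν e a b = Dm ν e b a := by
  unfold Dm
  congr 3
  funext k
  rw [real_inner_comm]

theorem dm_blk (hc : Conc ν g F L ℓ M N e) (a b : Ix J) (h : Dm ν e a b ≠ 0) :
    gr g a = gr g b := by
  by_contra hcon
  apply h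
  have h1 : ∀ k, inner ℝ (e a k) (e b k) = 0 := by
    intro k
    by_cases h2 : e a k = 0
    · rw [h2, inner_zero_left]
    · by_cases h3 : e b k = 0
      · rw [h3, inner_zero_right]
      · exact absurd (hc.disj a b k h2 h3) hcon
  unfold Dm
  simp [h1]

theorem pair_self (hc : Conc ν g F L ℓ M N e) (a : Ix J) : ∑' k, ‖e a k‖ ^ 2 = 1 := by
  have h := (hc.orth a a).1 rfl
  unfold pair at h
  simp only [real_inner_self_eq_norm_sq] at h
  exact h

theorem sq_summable (hc : Conc ν g F L ℓ M N e) (a : Ix J) : Summable (fun k => ‖e a k‖ ^ 2) := by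
  have h := norm_sq_summable hc a a (fun _ => 1)
  simp only [real_inner_self_eq_norm_sq, one_mul] at h
  exact h

theorem dm_size (hc : Conc ν g F L ℓ M N e) (hν : 0 < ν) (a b : Ix J) :
    |Dm ν e a b| ≤ ν * (2 * Real.pi) ^ 2 * M (gr g a) ^ 2 := by
  unfold Dm
  rw [abs_mul, abs_of_pos hν, abs_mul, abs_of_nonneg (by positivity : 0 ≤ (2 * Real.pi) ^ 2),
    mul_assoc]
  apply mul_le_mul_of_nonneg_left _ hν.le
  apply mul_le_mul_of_nonneg_left _ (by positivity)
  have h1 : ∀ k, ‖‖vec k‖ ^ 2 * inner ℝ (e a k) (e b k)‖ ≤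
      M (gr g a) ^ 2 * ((‖e a k‖ ^ 2 + ‖e b k‖ ^ 2) / 2) := by
    intro k
    rw [Real.norm_eq_abs, abs_mul, abs_of_nonneg (by positivity : 0 ≤ ‖vec k‖ ^ 2)]
    by_cases h2 : e a k = 0
    · rw [h2, inner_zero_left, abs_zero, mul_zero]
      positivity
    · have h3 : ‖vec k‖ ^ 2 ≤ M (gr g a) ^ 2 :=
        pow_le_pow_left₀ (norm_nonneg _) (supp_le hc a k h2) 2
      apply mul_le_mul h3 _ (abs_nonneg _) (by positivity)
      have h4 := abs_real_inner_le_norm (e a k) (e b k)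
      nlinarith [sq_nonneg (‖e a k‖ - ‖e b k‖)]
  have hs : Summable (fun k => M (gr g a) ^ 2 * ((‖e a k‖ ^ 2 + ‖e b k‖ ^ 2) / 2)) :=
    (((sq_summable hc a).add (sq_summable hc b)).div_const 2).mul_left _
  have h2 := tsum_of_norm_bounded hs.hasSum h1
  rw [Real.norm_eq_abs] at h2
  refine h2.trans (le_of_eq ?_)
  rw [tsum_mul_left, tsum_div_const, (sq_summable hc a).tsum_add (sq_summable hc b),
    pair_self hc a, pair_self hc b]
  ring

/-- interchange of the sums -/
theorem sum_quad (hc : Conc ν g F L ℓ M N e) (s : Finset (Ix J)) (w : Ix J → ℝ) (f : Z3 → ℝ) :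
    ∑ a ∈ s, ∑ b ∈ s, (∑' k, f k * inner ℝ (e a k) (e b k)) * w a * w b =
      ∑' k, f k * ‖∑ a ∈ s, w a • e a k‖ ^ 2 := by
  have h1 : ∀ k, f k * ‖∑ a ∈ s, w a • e a k‖ ^ 2 =
      ∑ a ∈ s, ∑ b ∈ s, f k * inner ℝ (e a k) (e b k) * (w a * w b) := by
    intro k
    rw [← real_inner_self_eq_norm_sq, sum_inner, Finset.mul_sum]
    refine Finset.sum_congr rfl fun a _ => ?_
    rw [inner_sum, Finset.mul_sum]
    refine Finset.sum_congr rfl fun b _ => ?_
    rw [inner_smul_left, inner_smul_right]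
    simp only [conj_trivial]
    ring
  simp only [h1]
  rw [Summable.tsum_finsetSum]
  · refine Finset.sum_congr rfl fun a _ => ?_
    rw [Summable.tsum_finsetSum]
    · refine Finset.sum_congr rfl fun b _ => ?_
      rw [tsum_mul_right, mul_assoc]
    · intro b _
      exact (norm_sq_summable hc a b f).mul_right _
  · intro a _
    exact summable_sum fun b _ => (norm_sq_summable hc a b f).mul_right _

theorem quad_summable (hc : Conc ν g F L ℓ M N e) (s : Finset (Ix J)) (w : Ix J → ℝ)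
    (f : Z3 → ℝ) : Summable (fun k => f k * ‖∑ a ∈ s, w a • e a k‖ ^ 2) := by
  have h1 : ∀ k, f k * ‖∑ a ∈ s, w a • e a k‖ ^ 2 =
      ∑ a ∈ s, ∑ b ∈ s, f k * inner ℝ (e a k) (e b k) * (w a * w b) := by
    intro k
    rw [← real_inner_self_eq_norm_sq, sum_inner, Finset.mul_sum]
    refine Finset.sum_congr rfl fun a _ => ?_
    rw [inner_sum, Finset.mul_sum]
    refine Finset.sum_congr rfl fun b _ => ?_
    rw [inner_smul_left, inner_smul_right]
    simp only [conj_trivial]
    ring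
  simp only [h1]
  exact summable_sum fun a _ => summable_sum fun b _ => (norm_sq_summable hc a b f).mul_right _

theorem dm_coer (hc : Conc ν g F L ℓ M N e) (hν : 0 < ν) (D : ℝ) (hD : 0 < D)
    (hlow : ∀ a k, e a k ≠ 0 → L (gr g a) ≤ D * ‖vec k‖ ^ 3) (s : Finset (Ix J))
    (z : Ix J → ℝ) :
    ∑ a ∈ s, ν * (2 * Real.pi) ^ 2 * √(L (gr g a) / D) * z a ^ 2 ≤
      ∑ a ∈ s, ∑ b ∈ s, Dm ν e a b * z a * z b := by
  classical
  obtain ⟨w, hw⟩ : ∃ w : Ix J → ℝ, w = fun a => √√(L (gr g a) / D) * z a := ⟨_, rfl⟩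
  have h1 : ∀ k, ‖∑ a ∈ s, w a • e a k‖ ^ 2 ≤ ‖vec k‖ ^ 2 * ‖∑ a ∈ s, z a • e a k‖ ^ 2 := by
    intro k
    by_cases h0 : ∀ a ∈ s, e a k = 0
    · have h2 : ∑ a ∈ s, w a • e a k = 0 := by
        apply Finset.sum_eq_zero
        intro a ha
        rw [h0 a ha, smul_zero]
      rw [h2, norm_zero, zero_pow two_ne_zero]
      positivity
    · push Not at h0
      obtain ⟨b, hb, hbk⟩ := h0
      have h2 : ∑ a ∈ s, w a • e a k = √√(L (gr g b) / D) • ∑ a ∈ s, z a • e a k := by
        rw [Finset.smul_sum]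
        refine Finset.sum_congr rfl fun a _ => ?_
        by_cases h3 : e a k = 0
        · rw [h3, smul_zero, smul_zero, smul_zero]
        · simp only [hw]
          rw [smul_smul, hc.disj a b k h3 hbk]
      rw [h2, norm_smul, mul_pow, Real.norm_eq_abs, sq_abs, Real.sq_sqrt (Real.sqrt_nonneg _)]
      apply mul_le_mul_of_nonneg_right _ (by positivity)
      have h4 : 1 ≤ ‖vec k‖ := (hc.fsupp b k hbk).1
      rw [Real.sqrt_le_left (by positivity)]
      have h5 : L (gr g b) / D ≤ ‖vec k‖ ^ 3 := by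
        rw [div_le_iff₀ hD, mul_comm]
        exact hlow b k hbk
      refine h5.trans ?_
      rw [← pow_mul]
      exact pow_le_pow_right₀ h4 (by norm_num)
  have h2 : ∑ a ∈ s, ∑ b ∈ s, (∑' k, (1 : ℝ) * inner ℝ (e a k) (e b k)) * w a * w b =
      ∑ a ∈ s, √(L (gr g a) / D) * z a ^ 2 := by
    refine Finset.sum_congr rfl fun a ha => ?_
    rw [Finset.sum_eq_single a]
    · have h3 : ∑' k, (1 : ℝ) * inner ℝ (e a k) (e a k) = 1 := by
        simp only [one_mul]
        exact (hc.orth a a).1 rfl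
      rw [h3, hw]
      simp only
      have h4 := Real.mul_self_sqrt (Real.sqrt_nonneg (L (gr g a) / D))
      calc 1 * (√√(L (gr g a) / D) * z a) * (√√(L (gr g a) / D) * z a)
          = (√√(L (gr g a) / D) * √√(L (gr g a) / D)) * z a ^ 2 := by ring
        _ = _ := by rw [h4]
    · intro b _ hb
      have h3 : ∑' k, (1 : ℝ) * inner ℝ (e a k) (e b k) = 0 := by
        simp only [one_mul]
        exact (hc.orth a b).2 (Ne.symm hb)
      rw [h3, zero_mul, zero_mul]
    · intro h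
      exact absurd ha h
  have h3 : ∑ a ∈ s, √(L (gr g a) / D) * z a ^ 2 ≤
      ∑' k, ‖vec k‖ ^ 2 * ‖∑ a ∈ s, z a • e a k‖ ^ 2 := by
    rw [← h2, sum_quad hc s w (fun _ => 1)]
    apply Summable.tsum_le_tsum _ (quad_summable hc s w (fun _ => 1)) (quad_summable hc s z _)
    intro k
    rw [one_mul]
    exact h1 k
  have h4 : ∑ a ∈ s, ∑ b ∈ s, Dm ν e a b * z a * z b = ν * ((2 * Real.pi) ^ 2 *
      ∑' k, ‖vec k‖ ^ 2 * ‖∑ a ∈ s, z a • e a k‖ ^ 2) := by
    rw [← sum_quad hc s z, Finset.mul_sum, Finset.mul_sum]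
    refine Finset.sum_congr rfl fun a _ => ?_
    rw [Finset.mul_sum, Finset.mul_sum]
    refine Finset.sum_congr rfl fun b _ => ?_
    unfold Dm
    ring
  rw [h4]
  have h5 : ∑ a ∈ s, ν * (2 * Real.pi) ^ 2 * √(L (gr g a) / D) * z a ^ 2 =
      ν * ((2 * Real.pi) ^ 2 * ∑ a ∈ s, √(L (gr g a) / D) * z a ^ 2) := by
    rw [Finset.mul_sum, Finset.mul_sum]
    refine Finset.sum_congr rfl fun a _ => ?_
    ring
  rw [h5]
  apply mul_le_mul_of_nonneg_left _ hν.le
  exact mul_le_mul_of_nonneg_left h3 (by positivity)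

/-! ### The parameters -/

theorem L_ge (h : Pool.Agent.Y5.D.Seq lm L C ℓ M B) (n : ℕ) : (n : ℝ) + 1 ≤ L n := by
  induction n with
  | zero =>
    have := h.L0
    push_cast
    linarith
  | succ n ih =>
    have h1 := h.lm_succ n
    have h2 := h.lm_big (n + 1)
    have h3 : (0 : ℝ) ≤ n := Nat.cast_nonneg n
    rw [← h1]
    push_cast
    have h4 : (2 : ℝ) ≤ lm (n + 1) := le_trans (by norm_num) h2
    nlinarith

theorem t_CONCN : Pool.Agent.Y5.D.S_CONC → Pool.Agent.Y6.N.S_CONCN := by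
  intro hC ν hν
  obtain ⟨J, g, F, lm, L, C, ℓ, M, N, B, e, hc, hS, hK⟩ := hC ν hν
  obtain ⟨o, σ, τ, hR⟩ := exists_rot hc hK
  obtain ⟨D, hD, hlow⟩ := hc.lowf
  obtain ⟨ℓ', hℓ'⟩ : ∃ ℓ' : ℕ → ℝ, ℓ' = fun n => Dm ν e (Sum.inl n) (Sum.inl n) := ⟨_, rfl⟩
  have hl0 : ∀ n, 0 ≤ ℓ' n := by
    intro n
    rw [hℓ']
    exact dm_diag_nonneg hν _
  have hl1 : ∀ n, ℓ' n ≤ ℓ n := by
    intro n
    have h1 := hc.coer n
    have h2 := hl0 n
    rw [hℓ'] at h2 ⊢
    simp only [dm_diag] at h2 ⊢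
    linarith
  refine ⟨J, g, o, σ, τ, F, lm, L, C, ℓ, ℓ', M, N, fun n => ν * (2 * Real.pi) ^ 2 * √(L n / D),
    fun n => ν * (2 * Real.pi) ^ 2 * M n ^ 2, B, e, hc, hS, ?_, hK, hR, ?_, ?_⟩
  · refine ⟨hS.L0, hS.lm_succ, hS.lm_big, hS.lm_grow, hS.M_one, hS.M_mono, hS.M_le, hS.exp_big,
      hS.C_lo, hS.C_hi, hS.B_lo, hS.B_hi, hl0, ?_, ?_⟩
    · refine le_trans ?_ hS.ℓ_zero
      have h1 : 0 ≤ lm 0 := le_trans (by norm_num) (hS.lm_big 0)
      have h2 := mul_le_mul_of_nonneg_right (hl1 0) h1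
      linarith
    · intro n
      refine le_trans ?_ (hS.ℓ_succ n)
      have := hl1 (n + 1)
      linarith
  · refine ⟨dm_symm, dm_blk hc, dm_size hc hν, fun n => by rw [hℓ'], dm_coer hc hν D hD hlow, ?_, ?_⟩
    · intro n
      positivity
    · have h1 : Tendsto L atTop atTop := by
        refine tendsto_atTop_mono (f := fun n : ℕ => (n : ℝ)) (fun n => ?_)
          tendsto_natCast_atTop_atTop
        have := L_ge hS n
        linarith
      have h2 : Tendsto (fun n => √(L n / D)) atTop atTop :=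
        Real.tendsto_sqrt_atTop.comp (h1.atTop_div_const hD)
      exact h2.const_mul_atTop (by positivity)
  · refine ⟨ν * (2 * Real.pi) ^ 2, 8, fun n => ?_⟩
    apply mul_le_mul_of_nonneg_left _ (by positivity)
    have h1 : M n ≤ L n ^ 4 := (hS.M_mono n).trans (hS.M_le n)
    have h2 : 0 ≤ M n := le_trans zero_le_one (hS.M_one n)
    calc M n ^ 2 ≤ (L n ^ 4) ^ 2 := pow_le_pow_left₀ h2 h1 2
      _ = L n ^ 8 := by ring

end Pool.Agent.Y638.NSK
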